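import Pool.Agent.H22.LG.BN

/-! Crew LG (BN-pairs), part EXT (helper10): `C(s) C(n) = C(s n)` if the length does not drop. -/

set_option autoImplicit false

namespace H10.LG.EXT

open H22.LG

variable {G : Type} [Group G]

theorem C_symm (D : BN G) {x y : G} (h : x ∈ D.C y) : y ∈ D.C x := by
  obtain ⟨b, hb, c, hc, rfl⟩ := h
  exact ⟨b⁻¹, D.B.inv_mem hb, c⁻¹, D.B.inv_mem hc, by group⟩

theorem C_trans (D : BN G) {x y z : G} (h : x ∈ D.C y) (h' : y ∈ D.C z) : x ∈ D.C z := by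
  obtain ⟨b, hb, c, hc, rfl⟩ := h
  obtain ⟨b', hb', c', hc', rfl⟩ := h'
  exact ⟨b * b', D.B.mul_mem hb hb', c' * c, D.B.mul_mem hc' hc, by group⟩

/-- the right version of the axiom `mul` -/
theorem mulR (D : BN G) (s : G) (hs : s ∈ D.S) (n : G) (hn : n ∈ D.N) (b : G) (hb : b ∈ D.B) :
    n * b * s ∈ D.C n ∨ n * b * s ∈ D.C (n * s) := by
  obtain ⟨m, hm, b₁, hb₁, b₂, hb₂, h⟩ := D.mul s hs n⁻¹ (D.N.inv_mem hn) ((s * s)⁻¹ * b⁻¹)
    (D.B.mul_mem (D.B.inv_mem (D.ss s hs)) (D.B.inv_mem hb))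
  have h1 : n * b * s = b₂⁻¹ * m⁻¹ * b₁⁻¹ := by
    have h2 : n * b * s = (s * ((s * s)⁻¹ * b⁻¹) * n⁻¹)⁻¹ := by group
    rw [h2, h]; group
  rcases hm with hm | hm
  · left
    refine ⟨b₂⁻¹, D.B.inv_mem hb₂, b₁⁻¹, D.B.inv_mem hb₁, ?_⟩
    rw [h1, hm]; group
  · right
    refine ⟨b₂⁻¹, D.B.inv_mem hb₂, (s * s)⁻¹ * b₁⁻¹,
      D.B.mul_mem (D.B.inv_mem (D.ss s hs)) (D.B.inv_mem hb₁), ?_⟩
    rw [h1, Set.mem_singleton_iff.1 hm]; group

theorem ext_aux (hL : S_LEN) (hU : S_UNQ) (D : BN G) (k : ℕ) : ∀ n ∈ D.N, ∀ s ∈ D.S,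
    D.len n = k → D.len n ≤ D.len (s * n) → ∀ b ∈ D.B, s * b * n ∈ D.C (s * n) := by
  induction k using Nat.strong_induction_on with
  | _ k ih =>
  intro n hn s hsS hk hle b hb
  obtain ⟨hT, hinv, hs, hl, hr, h0⟩ := hL G D n hn
  by_cases hnB : n ∈ D.B
  · exact ⟨1, D.B.one_mem, n⁻¹ * (b * n), D.B.mul_mem (D.B.inv_mem hnB) (D.B.mul_mem hb hnB),
      by group⟩
  obtain ⟨t, htS, hlt⟩ := hr hnB
  have hsN := D.sN s hsS
  have htN := D.sN t htS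
  have hwN : n * t ∈ D.N := D.N.mul_mem hn htN
  have hsw : s * (n * t) ∈ D.N := D.N.mul_mem hsN hwN
  have hsn : s * n ∈ D.N := D.N.mul_mem hsN hn
  have hle2 : D.len (n * t) ≤ D.len (s * (n * t)) := by
    by_contra hcon
    rw [not_le] at hcon
    have h1 := ((hL G D (s * n) hsn).1 (t * t) (D.ss t htS) (D.N.mul_mem htN htN)).1
    have h2 := ((hL G D (s * (n * t)) hsw).2.2.1 t htS).1
    have h2' := ((hL G D (s * (n * t)) hsw).2.2.1 t htS).2.1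
    have h3 : s * n * (t * t) = s * (n * t) * t := by group
    rw [h3] at h1
    omega
  have hI := ih (D.len (n * t)) (by omega) (n * t) hwN s hsS rfl hle2 b hb
  obtain ⟨m, hm, b₁, hb₁, b₂, hb₂, h⟩ := D.mul s hsS n hn b hb
  rcases hm with hm | hm
  swap
  · rw [Set.mem_singleton_iff.1 hm] at h
    exact ⟨b₁, hb₁, b₂, hb₂, h⟩
  exfalso
  rw [hm] at h
  have h4 : s * b * (n * t) = b₁ * (n * b₂ * t) * 1 := by
    calc s * b * (n * t) = (s * b * n) * t := by group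
      _ = b₁ * (n * b₂ * t) * 1 := by rw [h]; group
  have h5 : s * b * (n * t) ∈ D.C (n * b₂ * t) := ⟨b₁, hb₁, 1, D.B.one_mem, h4⟩
  rcases mulR D t htS n hn b₂ hb₂ with h6 | h6
  · have h7 : s * (n * t) ∈ D.C n := C_trans D (C_symm D hI) (C_trans D h5 h6)
    have h8 := hU G D n hn _ hsw h7
    -- `n⁻¹ * (s * (n * t)) ∈ B`
    have hsin : s⁻¹ * n ∈ D.N := D.N.mul_mem (D.N.inv_mem hsN) hn
    have h9 := ((hL G D (s⁻¹ * n) hsin).1 _ h8 (D.N.mul_mem (D.N.inv_mem hn) hsw)).1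
    have h10 : s⁻¹ * n * (n⁻¹ * (s * (n * t))) = n * t := by group
    rw [h10, (hs s hsS).2.2.1] at h9
    omega
  · have h7 : s * (n * t) ∈ D.C (n * t) := C_trans D (C_symm D hI) (C_trans D h5 h6)
    have h8 := hU G D (n * t) hwN _ hsw h7
    have h9 := D.nor (n * t) hwN _ h8 (D.N.mul_mem (D.N.inv_mem hwN) hsw)
    have h10 : n * t * ((n * t)⁻¹ * (s * (n * t))) * (n * t)⁻¹ = s := by group
    rw [h10] at h9
    exact D.sB s hsS h9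

theorem t_EXT (hL : S_LEN) (hU : S_UNQ) : S_EXT := by
  intro G _ D n hn s hs
  refine ⟨fun h b hb => ext_aux hL hU D _ n hn s hs rfl h b hb, fun h b hb => ?_⟩
  have hsN := D.sN s hs
  have hni := D.N.inv_mem hn
  have h1 : D.len n⁻¹ = D.len n := (hL G D n hn).2.1
  have h2 : D.len (s * n⁻¹) = D.len (n * s) := by
    have h3 := (hL G D (s * n⁻¹) (D.N.mul_mem hsN hni)).2.1
    have h4 : (s * n⁻¹)⁻¹ = n * s⁻¹ := by group
    rw [h4, ((hL G D n hn).2.2.1 s hs).2.2.2] at h3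
    exact h3.symm
  obtain ⟨c₁, hc₁, c₂, hc₂, h5⟩ := ext_aux hL hU D _ n⁻¹ hni s hs rfl (by omega)
    ((s * s)⁻¹ * b⁻¹) (D.B.mul_mem (D.B.inv_mem (D.ss s hs)) (D.B.inv_mem hb))
  refine ⟨c₂⁻¹, D.B.inv_mem hc₂, (s * s)⁻¹ * c₁⁻¹,
    D.B.mul_mem (D.B.inv_mem (D.ss s hs)) (D.B.inv_mem hc₁), ?_⟩
  have h6 : n * b * s = (s * ((s * s)⁻¹ * b⁻¹) * n⁻¹)⁻¹ := by group
  rw [h6, h5]; group

end H10.LG.EXT
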