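import Pool.Agent.H22.LG.BN

/-! Crew LG (BN-pairs), part UNQ (helper10): uniqueness in the Bruhat decomposition. -/

set_option autoImplicit false

namespace H10.LG

open H22.LG

variable {G : Type} [Group G]

theorem C_symm (D : BN G) {x y : G} (h : x ∈ D.C y) : y ∈ D.C x := by
  obtain ⟨b, hb, c, hc, rfl⟩ := h
  exact ⟨b⁻¹, D.B.inv_mem hb, c⁻¹, D.B.inv_mem hc, by group⟩

theorem C_trans (D : BN G) {x y z : G} (h : x ∈ D.C y) (h' : y ∈ D.C z) : x ∈ D.C z := by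
  obtain ⟨b, hb, c, hc, rfl⟩ := h
  obtain ⟨b', hb', c', hc', rfl⟩ := h'
  exact ⟨b * b', D.B.mul_mem hb hb', c' * c, D.B.mul_mem hc' hc, by group⟩

theorem unq_aux (hL : S_LEN) (D : BN G) (k : ℕ) : ∀ n ∈ D.N, ∀ n' ∈ D.N, D.len n = k →
    D.len n ≤ D.len n' → n' ∈ D.C n → n⁻¹ * n' ∈ D.B := by
  induction k using Nat.strong_induction_on with
  | _ k ih =>
  intro n hn n' hn' hk hle hC
  obtain ⟨hT, hinv, hs, hl, hr, h0⟩ := hL G D n hn
  by_cases hnB : n ∈ D.B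
  · obtain ⟨b, hb, c, hc, rfl⟩ := hC
    exact D.B.mul_mem (D.B.inv_mem hnB) (D.B.mul_mem (D.B.mul_mem hb hnB) hc)
  obtain ⟨s, hsS, hlt⟩ := hl hnB
  obtain ⟨b, hb, c, hc, hbc⟩ := hC
  obtain ⟨m', hm', b₁, hb₁, b₂, hb₂, heq⟩ := D.mul s hsS n' hn' b⁻¹ (D.B.inv_mem hb)
  have hC' : m' ∈ D.C (s * n) := by
    refine ⟨b₁⁻¹, D.B.inv_mem hb₁, c * b₂⁻¹, D.B.mul_mem hc (D.B.inv_mem hb₂), ?_⟩
    have h1 : m' = b₁⁻¹ * (s * b⁻¹ * n') * b₂⁻¹ := by rw [heq]; group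
    rw [h1, hbc]; group
  have hsn : s * n ∈ D.N := D.N.mul_mem (D.sN s hsS) hn
  rcases hm' with hm' | hm'
  · -- impossible
    rw [hm'] at hC'
    exfalso
    have h2 := ih (D.len (s * n)) (by omega) (s * n) hsn n' hn' rfl (by omega) hC'
    have h3 := (hL G D (s * n) hsn).1 _ h2 (D.N.mul_mem (D.N.inv_mem hsn) hn')
    have h4 : s * n * ((s * n)⁻¹ * n') = n' := by group
    rw [h4] at h3
    have := h3.1
    omega
  · rw [Set.mem_singleton_iff.1 hm'] at hC'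
    have hsn' : s * n' ∈ D.N := D.N.mul_mem (D.sN s hsS) hn'
    rcases le_or_gt (D.len (s * n)) (D.len (s * n')) with hc1 | hc1
    · have h2 := ih (D.len (s * n)) (by omega) (s * n) hsn (s * n') hsn' rfl hc1 hC'
      have h4 : (s * n)⁻¹ * (s * n') = n⁻¹ * n' := by group
      rwa [h4] at h2
    · have h2 := ih (D.len (s * n')) (by omega) (s * n') hsn' (s * n) hsn rfl hc1.le
        (C_symm D hC')
      have h4 : (s * n')⁻¹ * (s * n) = (n⁻¹ * n')⁻¹ := by group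
      rw [h4] at h2
      exact (D.B.inv_mem_iff).1 h2

theorem t_UNQ (hL : S_LEN) : S_UNQ := by
  intro G _ D n hn n' hn' h
  rcases le_total (D.len n) (D.len n') with hc | hc
  · exact unq_aux hL D _ n hn n' hn' rfl hc h
  · have h2 := unq_aux hL D _ n' hn' n hn rfl hc (C_symm D h)
    have h4 : n'⁻¹ * n = (n⁻¹ * n')⁻¹ := by group
    rw [h4] at h2
    exact (D.B.inv_mem_iff).1 h2

end H10.LG
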